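import Pool.Agent.Helper86.AN.Stmts

set_option autoImplicit false

namespace Pool.Agent.Helper8.AN

open Pool.Agent.Helper86.AN Finset

theorem tri_mem_orb {V : Type} [Fintype V] [DecidableEq V] (s : Equiv.Perm V) (a v : V) :
    v ∈ orb s a ↔ s.SameCycle a v := by
  simp [orb]

theorem tri_sinv_zpow {V : Type} (s : Equiv.Perm V) (A : Finset V) (h : Sinv s A) (k : ℤ) :
    ∀ v, (s ^ k) v ∈ A ↔ v ∈ A := by
  induction k using Int.induction_on with
  | zero => intro v; simp
  | succ i ih =>
    intro v
    rw [zpow_add_one, Equiv.Perm.mul_apply, ih, h]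
  | pred i ih =>
    intro v
    rw [zpow_sub_one, Equiv.Perm.mul_apply, ih, ← h (s⁻¹ v)]
    simp

theorem tri_same {V : Type} (s : Equiv.Perm V) (A : Finset V) (h : Sinv s A) (a v : V)
    (ha : a ∈ A) (hv : s.SameCycle a v) : v ∈ A := by
  obtain ⟨k, rfl⟩ := hv
  exact (tri_sinv_zpow s A h k a).mpr ha

theorem st_TRI (h1 : ST_REDF) (h2 : ST_TIL) (h3 : ST_EV) : ST_TRI := by
  intro V _ _ s A m a hsA hpA hmA ha hab hc3 hodd hrest
  obtain ⟨hbA, hmm, hba⟩ := hmA a ha
  set b := m a with hb
  have hdis : ∀ v, v ∈ orb s a → v ∈ orb s b → False := by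
    intro v h4 h5
    rw [tri_mem_orb] at h4 h5
    exact hab (h4.trans h5.symm)
  set S := orb s a ∪ orb s b with hS
  have haa : a ∈ orb s a := (tri_mem_orb s a a).mpr (Equiv.Perm.SameCycle.refl s a)
  have hbb : b ∈ orb s b := (tri_mem_orb s b b).mpr (Equiv.Perm.SameCycle.refl s b)
  have hSA : S ⊆ A := by
    intro v hv
    rcases Finset.mem_union.mp hv with h4 | h4
    · exact tri_same s A hsA a v ha ((tri_mem_orb s a v).mp h4)
    · exact tri_same s A hsA b v hbA ((tri_mem_orb s b v).mp h4)
  have horb : ∀ x v, s v ∈ orb s x ↔ v ∈ orb s x := by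
    intro x v
    rw [tri_mem_orb, tri_mem_orb, Equiv.Perm.sameCycle_apply_right]
  have horb' : ∀ x v, s.symm v ∈ orb s x ↔ v ∈ orb s x := by
    intro x v
    rw [← horb x (s.symm v), Equiv.apply_symm_apply]
  have hsS : Sinv s S := by
    intro v
    rw [hS, Finset.mem_union, Finset.mem_union, horb, horb]
  have hpS : Per3 s S := fun v hv => hpA v (hSA hv)
  have haS : a ∈ S := Finset.mem_union_left _ haa
  have hbS : b ∈ S := Finset.mem_union_right _ hbb
  obtain ⟨w1, hw1, ht1⟩ := (h2 V s a).2 (by rw [hc3]; decide)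
  obtain ⟨w2, hw2, ht2⟩ := (h2 V s b).2 hodd
  set w : V → V := fun v => if v ∈ orb s a then w1 v else w2 v with hw
  have hwa : ∀ v, v ∈ orb s a → w v = w1 v := by
    intro v hv
    simp only [hw]
    rw [if_pos hv]
  have hwb : ∀ v, v ∈ orb s b → w v = w2 v := by
    intro v hv
    simp only [hw]
    rw [if_neg (fun h => hdis v h hv)]
  have hmemT : ∀ v, v ∈ (S.erase a).erase b ↔ v ∈ (orb s a).erase a ∨ v ∈ (orb s b).erase b := by
    intro v
    simp only [Finset.mem_erase, hS, Finset.mem_union]
    constructor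
    · rintro ⟨h4, h5, h6 | h6⟩
      · exact Or.inl ⟨h5, h6⟩
      · exact Or.inr ⟨h4, h6⟩
    · rintro (⟨h4, h5⟩ | ⟨h4, h5⟩)
      · refine ⟨fun h6 => ?_, h4, Or.inl h5⟩
        subst h6
        exact hdis _ h5 hbb
      · refine ⟨h4, fun h6 => ?_, Or.inr h5⟩
        subst h6
        exact hdis _ haa h5
  have hwinv : InvOn ((S.erase a).erase b) w := by
    intro v hv
    rcases (hmemT v).mp hv with h4 | h4
    · obtain ⟨g1, g2, g3⟩ := hw1 v h4
      rw [hwa v (Finset.mem_of_mem_erase h4)]
      refine ⟨(hmemT _).mpr (Or.inl g1), ?_, g3⟩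
      rw [hwa _ (Finset.mem_of_mem_erase g1), g2]
    · obtain ⟨g1, g2, g3⟩ := hw2 v h4
      rw [hwb v (Finset.mem_of_mem_erase h4)]
      refine ⟨(hmemT _).mpr (Or.inr g1), ?_, g3⟩
      rw [hwb _ (Finset.mem_of_mem_erase g1), g2]
  have hwt : ∀ v ∈ (S.erase a).erase b, w v = s v ∨ w v = s.symm v := by
    intro v hv
    rcases (hmemT v).mp hv with h4 | h4
    · rw [hwa v (Finset.mem_of_mem_erase h4)]
      exact ht1 v h4
    · rw [hwb v (Finset.mem_of_mem_erase h4)]
      exact ht2 v h4
  -- the triangle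
  have hsa : s a ∈ (orb s a).erase a :=
    Finset.mem_erase.mpr ⟨(hpA a ha).1, (horb a a).mpr haa⟩
  have hsa' : s.symm a ∈ (orb s a).erase a := by
    refine Finset.mem_erase.mpr ⟨fun h => (hpA a ha).1 ?_, (horb' a a).mpr haa⟩
    have h5 := congrArg s h
    rw [Equiv.apply_symm_apply] at h5
    exact h5.symm
  have hsne : s a ≠ s.symm a := by
    intro h
    have h5 := congrArg s h
    rw [Equiv.apply_symm_apply] at h5
    exact (hpA a ha).2 h5
  have htri : (orb s a).erase a = {s a, s.symm a} := by
    symm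
    apply Finset.eq_of_subset_of_card_le
    · intro v hv
      rcases Finset.mem_insert.mp hv with rfl | hv
      · exact hsa
      · rw [Finset.mem_singleton.mp hv]
        exact hsa'
    · rw [Finset.card_erase_of_mem haa, hc3, Finset.card_pair hsne]
  have hw1a : w (s a) = s.symm a := by
    rw [hwa _ (Finset.mem_of_mem_erase hsa)]
    obtain ⟨g1, g2, g3⟩ := hw1 _ hsa
    rw [htri] at g1
    rcases Finset.mem_insert.mp g1 with h4 | h4
    · exact absurd h4 g3
    · exact Finset.mem_singleton.mp h4
  refine h1 V s A S m w a hSA hsA hsS hmA haS hbS hwinv ?_ hrest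
  intro c hc
  have hab' : a ≠ b := hba.symm
  set c' : V → Bool := fun v => if v = b then !(c (s b)) else if v = a then c (s b) else c v
    with hc'
  have cb : c' b = !(c (s b)) := by simp [hc']
  have ca : c' a = c (s b) := by simp [hc', hab']
  have co : ∀ v, v ≠ a → v ≠ b → c' v = c v := by
    intro v h4 h5
    simp [hc', h4, h5]
  have coT : ∀ v ∈ (S.erase a).erase b, c' v = c v := by
    intro v hv
    simp only [Finset.mem_erase] at hv
    exact co v hv.2.1 hv.1
  refine ⟨c', coT, ?_, ?_⟩
  · show c' b = !(c' a)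
    rw [cb, ca]
  · -- the involution
    set m2 : V → V := fun v => if v = a then b else if v = b then a else w v with hm2
    have m2a : m2 a = b := by simp [hm2]
    have m2b : m2 b = a := by simp [hm2, hba]
    have m2o : ∀ v ∈ (S.erase a).erase b, m2 v = w v := by
      intro v hv
      simp only [Finset.mem_erase] at hv
      simp [hm2, hv.1, hv.2.1]
    have hcase : ∀ v ∈ S, v = a ∨ v = b ∨ v ∈ (S.erase a).erase b := by
      intro v hv
      by_cases h4 : v = a
      · exact Or.inl h4
      · by_cases h5 : v = b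
        · exact Or.inr (Or.inl h5)
        · exact Or.inr (Or.inr (by simp [h4, h5, hv]))
    have hTS : ∀ v ∈ (S.erase a).erase b, v ∈ S := fun v hv =>
      Finset.mem_of_mem_erase (Finset.mem_of_mem_erase hv)
    have hinv : InvOn S m2 := by
      intro v hv
      rcases hcase v hv with rfl | rfl | h4
      · rw [m2a, m2b]
        exact ⟨hbS, rfl, hba⟩
      · rw [m2b, m2a]
        exact ⟨haS, rfl, hab'⟩
      · obtain ⟨g1, g2, g3⟩ := hwinv v h4
        rw [m2o v h4, m2o _ g1]
        exact ⟨hTS _ g1, g2, g3⟩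
    have hbi : Bi S m2 c' := by
      intro v hv
      rcases hcase v hv with rfl | rfl | h4
      · rw [m2a, cb, ca]
      · rw [m2b, cb, ca, Bool.not_not]
      · rw [m2o v h4, coT v h4, coT _ (hwinv v h4).1]
        exact hc v h4
    have hinn : ∀ β : Bool, inn s S c' β = ∅ := by
      intro β
      apply Finset.eq_empty_of_forall_notMem
      intro v hv
      simp only [inn, Finset.mem_filter] at hv
      obtain ⟨hvS, e1, e2, e3⟩ := hv
      rcases hcase v hvS with h4 | h4 | h4
      · rw [h4] at e2 e3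
        have g1 : s a ∈ (S.erase a).erase b := (hmemT _).mpr (Or.inl hsa)
        have g2 : s.symm a ∈ (S.erase a).erase b := (hmemT _).mpr (Or.inl hsa')
        have g3 := hc _ g1
        rw [hw1a, ← coT _ g1, ← coT _ g2, e2, e3] at g3
        cases β <;> simp at g3
      · rw [h4] at e1 e2
        have g1 : c' (s b) = c (s b) := by
          apply co
          · intro h
            exact hdis a haa (h ▸ (horb b b).mpr hbb)
          · exact (hpA b hbA).1
        rw [g1] at e2
        rw [cb, e2] at e1
        cases β <;> simp at e1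
      · have g3 := hc v h4
        rw [← coT _ (hwinv v h4).1, ← coT v h4, e1] at g3
        rcases hwt v h4 with h5 | h5
        · rw [h5, e2] at g3
          cases β <;> simp at g3
        · rw [h5, e3] at g3
          cases β <;> simp at g3
    exact h3 V s S m2 c' hsS hpS hinv hbi (Or.inl ⟨hinn true, hinn false⟩)

end Pool.Agent.Helper8.AN
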